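import Pool.Agent.Q291.MK.Stm8
import Pool.Agent.Q280.MK.GAP

/-!
# Job AV: conditional expectations are averages
-/

namespace Pool.Agent.Q91.MK

open Pool.Agent.Q291.MK Pool.Agent.Q280.MK

theorem t_AV : P_AV := by
  intro f hf hf0 hf1 φ u v hφ h x
  have h1 := Q_bounds hf hf0 hf1 hφ (m := u) (M := v) (c := 0) (fun x => (h x).1)
    (fun x => (h x).2) x (by
      intro y
      rw [zero_mul]
      exact mul_nonneg (hf0 _) (g_pos hf hf0 hf1 _).le)
  constructor <;> linarith [h1.1, h1.2]

end Pool.Agent.Q91.MK
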