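import Pool.Agent.Q291.MK.Stm4
import Pool.Agent.Q210.MK.POIS

/-!
# Job BMON: dependence on the bare coupling
-/

namespace Pool.Agent.Q91.MK

open Pool.Agent.Q291.MK Filter Topology

/-- The class grows with its constants. -/
lemma Cl_mono {C3 C8 C12 : ℝ} {a : ℕ → ℝ} (h : Cl C3 C8 C12 a) (hm : 0 ≤ mean a) :
    Cl (C3 + 3) (C8 + 1) (C12 + 1) a where
  nn := h.nn
  one := h.one
  mom := h.mom
  vr_le := h.vr_le
  k3_le := h.k3_le.trans (by nlinarith)
  m8_le := h.m8_le.trans (by nlinarith [pow_nonneg hm 4])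
  m12_le := h.m12_le.trans (by nlinarith [pow_nonneg hm 6])

/-- Iterates of a curve. -/
lemma Crv_it (hT : P_CRT) (hS : P_CRS) {a h : ℝ → ℕ → ℝ} (H : Crv a h) (n : ℕ) :
    Crv (fun s => R^[n] (a s)) (fun s => hit (a s) (h s) n) := by
  induction n with
  | zero => simpa [hit] using H
  | succ n ih =>
    have h1 := hT _ _ ih
    have h2 := hT _ _ h1
    have h3 := hS _ _ h2
    have h4 := hS _ _ h3
    have e1 : (fun s => R^[n + 1] (a s)) = fun s => S (S (T (T (R^[n] (a s))))) := by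
      funext s
      rw [Function.iterate_succ_apply']
      rfl
    rw [e1]
    exact h4

/-- Mean value theorem on the unit interval. -/
lemma mvt01 {f f' : ℝ → ℝ}
    (h : ∀ s ∈ Set.Icc (0:ℝ) 1, HasDerivWithinAt f (f' s) (Set.Icc 0 1) s) :
    ∃ x ∈ Set.Icc (0:ℝ) 1, f 1 - f 0 = f' x := by
  have hc : ContinuousOn f (Set.Icc 0 1) := fun s hs => (h s hs).continuousWithinAt
  obtain ⟨x, hx, hx'⟩ := exists_hasDerivAt_eq_slope f f' (by norm_num : (0:ℝ) < 1) hc
    (fun s hs => (h s ⟨hs.1.le, hs.2.le⟩).hasDerivAt (Icc_mem_nhds hs.1 hs.2))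
  refine ⟨x, ⟨hx.1.le, hx.2.le⟩, ?_⟩
  rw [hx']; simp

theorem t_BMON : P_CRE → P_CRT → P_CRS → P_CRP → P_CRN → P_BMON := by
  intro hE hT hS hP hN C3 C8 C12 M e C hc
  obtain ⟨D', hD', -, -, -, h4⟩ := hN C3 C8 C12 M e C hc
  have hpois : ∀ m : ℝ, 0 ≤ m → AM (pois m) ∧ mean (pois m) = m ∧ vr (pois m) = m := fun m hm =>
    ⟨(Pool.Agent.Q210.MK.t_POIS m hm).1, (Pool.Agent.Q210.MK.t_POIS m hm).2.1,
      (Pool.Agent.Q210.MK.t_POIS m hm).2.2.1⟩
  have hM := hc.hM
  have hC := hc.hC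
  -- response along the Poisson laws
  have hresp : ∀ (m x : ℝ) (n : ℕ), M ≤ m → (∀ i < n, M ≤ mean (R^[i] (pois m))) →
      Cl (C3 + 3) (C8 + 1) (C12 + 1) (R^[n] (pois m)) ∧ ∃ c' ρ' : ℝ,
        Nr e (R^[n] (pois m)) (hit (pois m) (vpois m x) n) c' ρ' ∧ |c' - x| ≤ |x| / 4 ∧
        ρ' ≤ 2 * C * |x| := by
    intro m x n hm hi
    have hm0 : 0 < m := by linarith
    obtain ⟨p1, p2, p3⟩ := hpois m hm0.le
    obtain ⟨-, q⟩ := hP m m hm0 hm0
    obtain ⟨q1, q2⟩ := q x e hc.he.le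
    have hcl : Cl (C3 + 3) (C8 + 1) (C12 + 1) (pois m) :=
      Cl_mono (hc.pois m hm) (by rw [p2]; exact hm0.le)
    obtain ⟨r1, c', ρ', r2, r3, r4, r5⟩ := hc.resp (pois m) (vpois m x) x 0 n hcl hi q1 n le_rfl
    refine ⟨r1, c', ρ', r2, r5 rfl (by rw [q2, p2, p3, div_self hm0.ne', one_mul]), ?_⟩
    refine r4.trans ?_
    rw [zero_div, zero_add, add_zero, p2]
    have : |x| / m ≤ |x| := div_le_self (abs_nonneg _) (by linarith)
    nlinarith [abs_nonneg x]
  set D : ℝ := 1 + 2 * D' ^ 2 + 4 * C + 5 / 4 * D' with hDdef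
  have hD1 : 1 ≤ D := by rw [hDdef]; nlinarith [sq_nonneg D']
  refine ⟨D, hD1, ?_⟩
  intro m1 m2 N hm12 hN1 hm1 n
  -- the two sided bound
  have key : ∀ n : ℕ, n ≤ N → ∀ m2 : ℝ, m1 ≤ m2 →
      3 / 4 * (m2 - m1) ≤ mean (R^[n] (pois m2)) - mean (R^[n] (pois m1)) ∧
      mean (R^[n] (pois m2)) - mean (R^[n] (pois m1)) ≤ 5 / 4 * (m2 - m1) := by
    intro n
    induction n using Nat.strong_induction_on with
    | _ n ih =>
      intro hn m2 hm2
      rcases Nat.eq_zero_or_pos n with h0 | h0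
      · subst h0
        simp only [Function.iterate_zero, id_eq]
        rw [(hpois m1 hm1.le).2.1, (hpois m2 (by linarith)).2.1]
        constructor <;> linarith
      · have hMm : M ≤ m1 := by
          have := hN1 0 (by omega)
          simpa [(hpois m1 hm1.le).2.1] using this
        obtain ⟨hcrv, -⟩ := hP m1 m2 hm1 (by linarith)
        have hcn := Crv_it hT hS hcrv n
        have hd := fun s hs => (hE _ _ hcn s hs).2 (fun k => (k:ℝ)) PB.id
        obtain ⟨x, hx, hx'⟩ := mvt01 hd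
        have hxm : m1 ≤ m1 + x * (m2 - m1) := by nlinarith [hx.1]
        have hi : ∀ i < n, M ≤ mean (R^[i] (pois (m1 + x * (m2 - m1)))) := by
          intro i hi
          have h1 := (ih i hi (by omega) (m1 + x * (m2 - m1)) hxm).1
          have h2 := hN1 i (by omega)
          nlinarith
        obtain ⟨-, c', ρ', r2, r3, -⟩ := hresp (m1 + x * (m2 - m1)) (m2 - m1) n (by linarith) hi
        have e1 : mean (R^[n] (pois m2)) - mean (R^[n] (pois m1)) = c' := by
          rw [← r2.mn]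
          have : E (R^[n] (pois (m1 + 1 * (m2 - m1)))) (fun k => (k:ℝ)) -
            E (R^[n] (pois (m1 + 0 * (m2 - m1)))) (fun k => (k:ℝ)) = _ := hx'
          rw [one_mul, zero_mul, add_zero, add_sub_cancel] at this
          exact this
        rw [e1]
        rw [abs_of_nonneg (by linarith : (0:ℝ) ≤ m2 - m1), abs_le] at r3
        constructor <;> linarith [r3.1, r3.2]
  intro hn
  refine ⟨(key n hn m2 hm12).1, (key n hn m2 hm12).2, ?_⟩
  intro hc1 hMD φ hφ
  set a := R^[n] (pois m1) with ha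
  have hsq1 : (1:ℝ) ≤ √(mean a) := by
    rw [Real.one_le_sqrt]; linarith
  have hsqD : 5 / 4 ≤ √(mean a) / D' := by
    rw [le_div_iff₀ hD']
    apply Real.le_sqrt_of_sq_le
    have : (5 / 4 * D') ^ 2 ≤ D := by rw [hDdef]; nlinarith [sq_nonneg D']
    linarith
  have hMm : M ≤ m1 := by
    rcases Nat.eq_zero_or_pos n with h0 | h0
    · subst h0
      have : mean a = m1 := by
        rw [ha]; simp only [Function.iterate_zero, id_eq]; exact (hpois m1 hm1.le).2.1
      linarith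
    · have := hN1 0 (by omega)
      simpa [(hpois m1 hm1.le).2.1] using this
  obtain ⟨hcrv, -⟩ := hP m1 m2 hm1 (by linarith)
  have hcn := Crv_it hT hS hcrv n
  have hd1 := fun s hs => (hE _ _ hcn s hs).2 (fun k => (k:ℝ)) PB.id
  have hd2 := fun s hs => (hE _ _ hcn s hs).2 φ hφ.pb
  have hd3 : ∀ s ∈ Set.Icc (0:ℝ) 1, HasDerivWithinAt
      (fun s => E (R^[n] (pois (m1 + s * (m2 - m1)))) φ -
        E (R^[n] (pois (m1 + s * (m2 - m1)))) (fun k => (k:ℝ)) * E a (dl φ))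
      (E (hit (pois (m1 + s * (m2 - m1))) (vpois (m1 + s * (m2 - m1)) (m2 - m1)) n) φ -
        E (hit (pois (m1 + s * (m2 - m1))) (vpois (m1 + s * (m2 - m1)) (m2 - m1)) n)
          (fun k => (k:ℝ)) * E a (dl φ)) (Set.Icc 0 1) s := fun s hs =>
    (hd2 s hs).sub ((hd1 s hs).mul_const _)
  obtain ⟨x, hx, hx'⟩ := mvt01 hd3
  have e1 : m1 + 1 * (m2 - m1) = m2 := by ring
  have e0 : m1 + 0 * (m2 - m1) = m1 := by ring
  rw [e1, e0] at hx'
  have e2 : E (R^[n] (pois m2)) φ - E a φ - (mean (R^[n] (pois m2)) - mean a) * E a (dl φ) =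
      (E (R^[n] (pois m2)) φ - E (R^[n] (pois m2)) (fun k => (k:ℝ)) * E a (dl φ)) -
      (E (R^[n] (pois m1)) φ - E (R^[n] (pois m1)) (fun k => (k:ℝ)) * E a (dl φ)) := by
    rw [← ha]; unfold mean; ring
  rw [e2, hx']
  set b := R^[n] (pois (m1 + x * (m2 - m1))) with hb
  have hxm : m1 ≤ m1 + x * (m2 - m1) := by nlinarith [hx.1]
  have hxm2 : m1 + x * (m2 - m1) ≤ m2 := by nlinarith [hx.2]
  have hi : ∀ i < n, M ≤ mean (R^[i] (pois (m1 + x * (m2 - m1)))) := by
    intro i hi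
    have h1 := (key i (by omega) (m1 + x * (m2 - m1)) hxm).1
    have h2 := hN1 i (by omega)
    nlinarith
  obtain ⟨hclb, c', ρ', r2, r3, r4⟩ := hresp (m1 + x * (m2 - m1)) (m2 - m1) n (by linarith) hi
  obtain ⟨hcla, -⟩ := hresp m1 (m2 - m1) n hMm (fun i hi => hN1 i (by omega))
  rw [← hb] at hclb r2
  rw [← ha] at hcla
  have hk := key n hn _ hxm
  rw [← ha, ← hb] at hk
  have hclose : |mean b - mean a| ≤ √(mean a) / D' := by
    rw [abs_of_nonneg (by nlinarith)]
    refine le_trans ?_ hsqD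
    nlinarith
  obtain ⟨t1, t2⟩ := h4 a b hcla hclb (by linarith) hclose φ hφ
  have hr := r2.bd _ t1
  rw [r2.mn]
  have e3 : E b (dl fun k => φ k / 2) = E b (dl φ) / 2 := by
    have : (dl fun k => φ k / 2) = fun k => (1/2) * dl φ k := by
      funext k; unfold dl; ring
    rw [this, E_const_mul]; ring
  have e4 : ∀ h : ℕ → ℝ, E h (fun k => φ k / 2) = E h φ / 2 := by
    intro h
    have : (fun k => φ k / 2) = fun k => (1/2) * φ k := by
      funext k; ring
    rw [this, E_const_mul]; ring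
  rw [e3, e4] at hr
  have hx0 : 0 ≤ m2 - m1 := by linarith
  rw [abs_of_nonneg hx0] at r3 r4
  have hc'0 : 0 ≤ c' := by have := abs_le.1 r3; linarith [this.1]
  have hc'1 : c' ≤ 5 / 4 * (m2 - m1) := by have := abs_le.1 r3; linarith [this.2]
  set X := E (hit (pois (m1 + x * (m2 - m1))) (vpois (m1 + x * (m2 - m1)) (m2 - m1)) n) φ with hX
  have h5 : |X - c' * E b (dl φ)| ≤ 2 * ρ' := by
    have : X - c' * E b (dl φ) = 2 * (X / 2 - c' * (E b (dl φ) / 2)) := by ring
    rw [this, abs_mul, abs_two]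
    linarith
  have h6 : |X - c' * E a (dl φ)| ≤ 2 * ρ' + c' * (D' * √(mean a)) := by
    have : X - c' * E a (dl φ) = (X - c' * E b (dl φ)) + c' * (E b (dl φ) - E a (dl φ)) := by ring
    rw [this]
    refine (abs_add_le _ _).trans (add_le_add h5 ?_)
    rw [abs_mul, abs_of_nonneg hc'0]
    exact mul_le_mul_of_nonneg_left t2 hc'0
  refine h6.trans ?_
  have h7 : 2 * ρ' ≤ 4 * C * (m2 - m1) * √(mean a) := by
    have h8 : 2 * ρ' ≤ 4 * C * (m2 - m1) := by linarith
    have h9 : 0 ≤ 4 * C * (m2 - m1) := by positivity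
    nlinarith
  have h10 : c' * (D' * √(mean a)) ≤ 5 / 4 * (m2 - m1) * (D' * √(mean a)) :=
    mul_le_mul_of_nonneg_right hc'1 (by positivity)
  have h11 : (4 * C + 5 / 4 * D') * (m2 - m1) * √(mean a) ≤ D * (m2 - m1) * √(mean a) := by
    refine mul_le_mul_of_nonneg_right (mul_le_mul_of_nonneg_right ?_ hx0) (by positivity)
    rw [hDdef]; nlinarith [sq_nonneg D']
  nlinarith

end Pool.Agent.Q91.MK
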