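import Pool.Agent.Q291.MK.Stm5
import Pool.Agent.Q291.MK.Base

/-!
# Job OR2: orbits of the Wilson action to the next order
-/

namespace Pool.Agent.Q91.MK

open Pool.Agent.Q291.MK Filter Topology

lemma neg_log_one_sub {t : ℝ} (h0 : 0 ≤ t) (h1 : t ≤ 1 / 2) :
    |-Real.log (1 - t) - t| ≤ 2 * t ^ 2 := by
  have hp : 0 < 1 - t := by linarith
  have h2 : Real.log (1 - t) ≤ -t := by
    have := Real.log_le_sub_one_of_pos hp; linarith
  have h3 : -Real.log (1 - t) ≤ t / (1 - t) := by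
    have := Real.log_le_sub_one_of_pos (inv_pos.2 hp)
    rw [Real.log_inv] at this
    refine this.trans (le_of_eq ?_)
    field_simp
    ring
  have h4 : t / (1 - t) ≤ t + 2 * t ^ 2 := by
    rw [div_le_iff₀ hp]; nlinarith [sq_nonneg t, mul_nonneg h0 (sq_nonneg t)]
  rw [abs_le]
  constructor <;> nlinarith [sq_nonneg t]

/-- The weight `1 / μ^(3/2)` telescopes. -/
lemma w_tel {μ μ' : ℝ} (h0 : 0 < μ') (h : 1 ≤ μ - μ') :
    1 / (μ * √μ) ≤ 2 * (1 / √μ' - 1 / √μ) := by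
  have hμ : 0 < μ := by linarith
  obtain ⟨r, hr, rfl⟩ : ∃ r : ℝ, 0 < r ∧ r ^ 2 = μ := ⟨√μ, Real.sqrt_pos.2 hμ, Real.sq_sqrt hμ.le⟩
  obtain ⟨t, ht, rfl⟩ : ∃ t : ℝ, 0 < t ∧ t ^ 2 = μ' :=
    ⟨√μ', Real.sqrt_pos.2 h0, Real.sq_sqrt h0.le⟩
  rw [Real.sqrt_sq hr.le, Real.sqrt_sq ht.le]
  have htr : t < r := by nlinarith
  have e : 2 * (1 / t - 1 / r) = 2 * (r - t) / (r * t) := by field_simp
  rw [e, div_le_div_iff₀ (by positivity) (by positivity)]
  -- r t ≤ 2 (r - t) r^3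
  have h1 : 1 ≤ (r - t) * (r + t) := by nlinarith
  have h2 : (r - t) * (r + t) ≤ (r - t) * (2 * r) :=
    mul_le_mul_of_nonneg_left (by linarith) (by linarith)
  have h3 : 1 ≤ 2 * (r - t) * r := by linarith
  have h4 : r * t ≤ r ^ 2 := by nlinarith
  nlinarith [mul_le_mul_of_nonneg_left h3 (sq_nonneg r)]

/-- One step of the flow. -/
lemma one_step {D c μ μ' s s' y y' : ℝ} (hD : 0 < D) (hc : 0 ≤ c)
    (hM : 100 * (D + 1) * (c + 3) ≤ μ) (hμ' : 0 < μ')
    (hs : 0 ≤ s ∧ s ≤ 1) (hs' : 0 ≤ s' ∧ s' ≤ 1) (hy : 0 ≤ y ∧ y ≤ c)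
    (h1 : |(μ' - 2 * s') - (μ - 2 * s) + 2 + 16 / 15 / μ| ≤
      D * ((|s - 1 / 3| + y) / μ + 1 / (μ * √μ)))
    (h2 : |s' - 1 / 3| ≤ |s - 1 / 3| / 16 + D / μ)
    (h3 : y' ≤ y / 256 + |s - 1 / 3| / 16 + D / √μ) :
    1 ≤ μ - μ' ∧ μ - μ' ≤ 4 ∧
    |((μ' - 2 * s') - 8 / 15 * Real.log μ') - ((μ - 2 * s) - 8 / 15 * Real.log μ) + 2| ≤
      (60 + 4 * D + D * c) * ((|s - 1 / 3| + y) / μ + 1 / (μ * √μ)) ∧
    (|s' - 1 / 3| + y') / μ' ≤ 1 / 4 * ((|s - 1 / 3| + y) / μ) + 4 * D * (1 / (μ * √μ)) := by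
  have hbig : (300:ℝ) ≤ 100 * (D + 1) * (c + 3) := by nlinarith
  have hμ : 0 < μ := by linarith
  have hμ300 : 300 ≤ μ := by linarith
  have hr1 : 1 ≤ √μ := by rw [Real.one_le_sqrt]; linarith
  have hrle : √μ ≤ μ := by
    rw [Real.sqrt_le_left hμ.le]; nlinarith
  have hrpos : 0 < √μ := by linarith
  set x := |s - 1 / 3| with hx
  have hx0 : 0 ≤ x := abs_nonneg _
  have hx1 : x ≤ 2 / 3 := by rw [hx, abs_le]; constructor <;> linarith [hs.1, hs.2]
  have hw : 1 / (μ * √μ) ≤ 1 / μ :=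
    one_div_le_one_div_of_le hμ (by nlinarith)
  have hw2 : 1 / μ ^ 2 ≤ 1 / (μ * √μ) :=
    one_div_le_one_div_of_le (by positivity) (by nlinarith)
  have hDc : D * (c + 3) / μ ≤ 1 / 100 := by
    rw [div_le_iff₀ hμ]; nlinarith
  have hDμ : D / μ ≤ 1 / 300 := by
    rw [div_le_iff₀ hμ]; nlinarith
  have h16 : 16 / 15 / μ ≤ 1 / 100 := by
    rw [div_le_iff₀ hμ]; linarith
  have h16' : 0 ≤ 16 / 15 / μ := by positivity
  -- crude form of the flow
  have hz : (x + y) / μ + 1 / (μ * √μ) ≤ (c + 2) / μ := by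
    have : (x + y) / μ + 1 / μ ≤ (c + 2) / μ := by
      rw [← add_div]; exact div_le_div_of_nonneg_right (by linarith [hy.2]) hμ.le
    linarith
  have hcr : |(μ' - 2 * s') - (μ - 2 * s) + 2| ≤ 16 / 15 / μ + D * ((c + 2) / μ) := by
    have e : (μ' - 2 * s') - (μ - 2 * s) + 2 =
      ((μ' - 2 * s') - (μ - 2 * s) + 2 + 16 / 15 / μ) - 16 / 15 / μ := by ring
    rw [e]
    refine (abs_sub _ _).trans ?_
    rw [abs_of_nonneg h16']
    have := h1.trans (mul_le_mul_of_nonneg_left hz hD.le)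
    linarith
  have hcr2 : 16 / 15 / μ + D * ((c + 2) / μ) ≤ 1 / 50 := by
    have : D * ((c + 2) / μ) ≤ D * (c + 3) / μ := by
      rw [mul_div_assoc']; gcongr; linarith
    linarith
  have hcr3 := abs_le.1 (hcr.trans hcr2)
  have hs2 := abs_le.1 h2
  -- s - s'
  have hss1 : -(2 / 5) ≤ s - s' := by
    rcases le_total s (1 / 3) with h | h
    · have hx' : x = 1 / 3 - s := by rw [hx, abs_of_nonpos (by linarith)]; ring
      rw [hx'] at hs2
      linarith [hs2.2, hs.1]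
    · have hx' : x = s - 1 / 3 := by rw [hx, abs_of_nonneg (by linarith)]
      rw [hx'] at hs2
      linarith [hs2.2, hs.1]
  have hss2 : s - s' ≤ 9 / 10 := by
    rcases le_total s (1 / 3) with h | h
    · have hx' : x = 1 / 3 - s := by rw [hx, abs_of_nonpos (by linarith)]; ring
      rw [hx'] at hs2
      linarith [hs2.1, hs.1]
    · have hx' : x = s - 1 / 3 := by rw [hx, abs_of_nonneg (by linarith)]
      rw [hx'] at hs2
      linarith [hs2.1, hs.2]
  have hd1 : 1 ≤ μ - μ' := by linarith [hcr3.2]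
  have hd2 : μ - μ' ≤ 4 := by linarith [hcr3.1]
  have hss3 : |s - s'| ≤ 17 / 16 * x + D / μ := by
    have : s - s' = (s - 1 / 3) - (s' - 1 / 3) := by ring
    rw [this]
    refine (abs_sub _ _).trans ?_
    linarith
  refine ⟨hd1, hd2, ?_, ?_⟩
  · -- logarithm
    set t := (μ - μ') / μ with ht
    have ht0 : 0 ≤ t := by rw [ht]; exact div_nonneg (by linarith) hμ.le
    have ht4 : t ≤ 4 / μ := by rw [ht]; gcongr
    have h4μ : 4 / μ ≤ 1 / 2 := by rw [div_le_iff₀ hμ]; linarith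
    have hlog : Real.log μ' - Real.log μ = Real.log (1 - t) := by
      rw [← Real.log_div hμ'.ne' hμ.ne']
      congr 1
      rw [ht]; field_simp; ring
    have hl := neg_log_one_sub ht0 (ht4.trans h4μ)
    have ht2 : 2 * t ^ 2 ≤ 32 * (1 / μ ^ 2) := by
      have : t ^ 2 ≤ (4 / μ) ^ 2 := by gcongr
      have e : (4 / μ) ^ 2 = 16 * (1 / μ ^ 2) := by ring
      rw [e] at this
      linarith
    -- t - 2/μ
    have htμ : |t - 2 / μ| ≤ 17 / 8 * (x / μ) + (2 * D + 16 / 15 + D * (c + 2)) * (1 / μ ^ 2) := by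
      have e : t - 2 / μ = (2 * (s - s') - ((μ' - 2 * s') - (μ - 2 * s) + 2)) / μ := by
        rw [ht, ← sub_div]; congr 1; ring
      rw [e, abs_div, abs_of_pos hμ, div_le_iff₀ hμ]
      refine (abs_sub _ _).trans ?_
      rw [abs_mul, abs_two]
      have e2 : (17 / 8 * (x / μ) + (2 * D + 16 / 15 + D * (c + 2)) * (1 / μ ^ 2)) * μ =
        2 * (17 / 16 * x + D / μ) + (16 / 15 / μ + D * ((c + 2) / μ)) := by
        field_simp; ring
      rw [e2]
      linarith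
    have e : ((μ' - 2 * s') - 8 / 15 * Real.log μ') - ((μ - 2 * s) - 8 / 15 * Real.log μ) + 2 =
      ((μ' - 2 * s') - (μ - 2 * s) + 2 + 16 / 15 / μ) + 8 / 15 * ((-Real.log (1 - t) - t) +
        (t - 2 / μ)) := by
      rw [← hlog]; ring
    rw [e]
    refine (abs_add_le _ _).trans ?_
    rw [abs_mul, abs_of_pos (by norm_num : (0:ℝ) < 8 / 15)]
    have h5 : |(-Real.log (1 - t) - t) + (t - 2 / μ)| ≤ 32 * (1 / μ ^ 2) +
      (17 / 8 * (x / μ) + (2 * D + 16 / 15 + D * (c + 2)) * (1 / μ ^ 2)) :=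
      (abs_add_le _ _).trans (add_le_add (hl.trans ht2) htμ)
    have h6 : x / μ ≤ (x + y) / μ := by gcongr; linarith [hy.1]
    have hz0 : 0 ≤ (x + y) / μ := div_nonneg (by linarith [hy.1]) hμ.le
    have hw0 : 0 ≤ 1 / (μ * √μ) := by positivity
    have hw20 : 0 ≤ 1 / μ ^ 2 := by positivity
    set w := 1 / (μ * √μ)
    set z := (x + y) / μ
    set w2 := 1 / μ ^ 2
    have h7 : 8 / 15 * |(-Real.log (1 - t) - t) + (t - 2 / μ)| ≤
      8 / 15 * (32 * w2 + (17 / 8 * z + (2 * D + 16 / 15 + D * (c + 2)) * w2)) := by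
      linarith
    have h8 : (2 * D + 16 / 15 + D * (c + 2)) * w2 ≤ (2 * D + 16 / 15 + D * (c + 2)) * w :=
      mul_le_mul_of_nonneg_left hw2 (by positivity)
    have h9 : 0 ≤ D * z := by positivity
    have h10 : 0 ≤ D * w := by positivity
    have h11 : 0 ≤ D * c * w := by positivity
    have h12 : 0 ≤ D * c * z := by positivity
    nlinarith
  · -- the error
    have hμ'2 : μ / 2 ≤ μ' := by linarith
    have h5 : |s' - 1 / 3| + y' ≤ 1 / 8 * (x + y) + 2 * D * (1 / √μ) := by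
      have h6 : D / μ ≤ D * (1 / √μ) := by
        rw [mul_one_div]; exact div_le_div_of_nonneg_left hD.le hrpos hrle
      have h7 : D / √μ = D * (1 / √μ) := by rw [mul_one_div]
      rw [h7] at h3
      linarith [hy.1]
    have h6 : 0 ≤ 1 / 8 * (x + y) + 2 * D * (1 / √μ) := by
      have := hy.1
      positivity
    calc (|s' - 1 / 3| + y') / μ' ≤ (1 / 8 * (x + y) + 2 * D * (1 / √μ)) / μ' := by gcongr
      _ ≤ (1 / 8 * (x + y) + 2 * D * (1 / √μ)) / (μ / 2) :=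
        div_le_div_of_nonneg_left h6 (by linarith) hμ'2
      _ = _ := by field_simp; ring

/-- The sequence lemma. -/
lemma seq_or2 {D c : ℝ} (hD : 0 < D) (hc : 0 ≤ c) {μ s y : ℕ → ℝ} {n : ℕ}
    (hM : ∀ i ≤ n, 100 * (D + 1) * (c + 3) ≤ μ i) (hs : ∀ i ≤ n, 0 ≤ s i ∧ s i ≤ 1)
    (hy : ∀ i ≤ n, 0 ≤ y i ∧ y i ≤ c)
    (h1 : ∀ i < n, |(μ (i + 1) - 2 * s (i + 1)) - (μ i - 2 * s i) + 2 + 16 / 15 / μ i| ≤
      D * ((|s i - 1 / 3| + y i) / μ i + 1 / (μ i * √(μ i))))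
    (h2 : ∀ i < n, |s (i + 1) - 1 / 3| ≤ |s i - 1 / 3| / 16 + D / μ i)
    (h3 : ∀ i < n, y (i + 1) ≤ y i / 256 + |s i - 1 / 3| / 16 + D / √(μ i)) :
    ∀ j ≤ n, |μ j - μ n - 2 * ((n:ℝ) - j) - 8 / 15 * Real.log (μ j / μ n)| ≤
      (60 + 4 * D + D * c) * (2 * (c + 1) + 6 * (1 + 4 * D)) + 4 := by
  have hbig : (300:ℝ) ≤ 100 * (D + 1) * (c + 3) := by nlinarith
  have hμ : ∀ i ≤ n, 300 ≤ μ i := fun i hi => by linarith [hM i hi]
  set A := 60 + 4 * D + D * c with hA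
  have hA0 : 0 ≤ A := by rw [hA]; positivity
  set z : ℕ → ℝ := fun i => (|s i - 1 / 3| + y i) / μ i with hz
  set w : ℕ → ℝ := fun i => 1 / (μ i * √(μ i)) with hw
  set Φ : ℕ → ℝ := fun i => (μ i - 2 * s i) - 8 / 15 * Real.log (μ i) with hΦ
  have hstep : ∀ i < n, 1 ≤ μ i - μ (i + 1) ∧ |Φ (i + 1) - Φ i + 2| ≤ A * (z i + w i) ∧
      z (i + 1) ≤ 1 / 4 * z i + 4 * D * w i := by
    intro i hi
    obtain ⟨q1, -, q2, q3⟩ := one_step hD hc (hM i hi.le)
      (by linarith [hμ (i + 1) hi]) (hs i hi.le) (hs (i + 1) hi) (hy i hi.le) (h1 i hi)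
      (h2 i hi) (h3 i hi)
    exact ⟨q1, q2, q3⟩
  have hz0 : ∀ i ≤ n, 0 ≤ z i := fun i hi =>
    div_nonneg (add_nonneg (abs_nonneg _) (hy i hi).1) (by linarith [hμ i hi])
  have hz1 : ∀ i ≤ n, z i ≤ c + 1 := fun i hi => by
    have : z i ≤ (c + 1) / 1 := by
      simp only [hz]
      have hh : |s i - 1 / 3| ≤ 1 := by
        rw [abs_le]; constructor <;> linarith [(hs i hi).1, (hs i hi).2]
      exact div_le_div₀ (by linarith) (by linarith [(hy i hi).2]) one_pos (by linarith [hμ i hi])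
    simpa using this
  -- potential
  set U : ℕ → ℝ := fun i => A * (4 / 3 * z i - (2 + 32 / 3 * D) * (1 / √(μ i))) with hU
  have hUstep : ∀ i < n, |Φ (i + 1) - Φ i + 2| ≤ U i - U (i + 1) := by
    intro i hi
    obtain ⟨q1, q2, q3⟩ := hstep i hi
    refine q2.trans ?_
    simp only [hU]
    rw [← mul_sub]
    refine mul_le_mul_of_nonneg_left ?_ hA0
    have h4 := w_tel (by linarith [hμ (i + 1) hi]) q1
    have h5 : w i ≤ 2 * (1 / √(μ (i + 1)) - 1 / √(μ i)) := h4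
    have h6 : (1 + 16 / 3 * D) * w i ≤ (1 + 16 / 3 * D) *
        (2 * (1 / √(μ (i + 1)) - 1 / √(μ i))) := mul_le_mul_of_nonneg_left h5 (by positivity)
    nlinarith
  -- telescoping
  have htel : ∀ d j : ℕ, j + d ≤ n → |Φ (j + d) - Φ j + 2 * d| ≤ U j - U (j + d) := by
    intro d
    induction d with
    | zero => intro j _; simp
    | succ d ih =>
      intro j hj
      have i1 := ih j (by omega)
      have i2 := hUstep (j + d) (by omega)
      have e : Φ (j + (d + 1)) - Φ j + 2 * ((d + 1 : ℕ):ℝ) =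
        (Φ (j + d) - Φ j + 2 * d) + (Φ (j + d + 1) - Φ (j + d) + 2) := by
        push_cast; rw [← add_assoc]; ring
      rw [e]
      refine (abs_add_le _ _).trans ?_
      rw [← add_assoc]
      linarith
  intro j hj
  have hf := htel (n - j) j (by omega)
  rw [Nat.add_sub_cancel' hj] at hf
  rw [Nat.cast_sub hj] at hf
  have hU1 : U j - U n ≤ A * (2 * (c + 1) + 6 * (1 + 4 * D)) := by
    simp only [hU]
    rw [← mul_sub]
    refine mul_le_mul_of_nonneg_left ?_ hA0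
    have k1 := hz1 j hj
    have k2 := hz0 n le_rfl
    have k3 : 1 / √(μ n) ≤ 1 := by
      rw [div_le_one (Real.sqrt_pos.2 (by linarith [hμ n le_rfl]))]
      rw [Real.one_le_sqrt]; linarith [hμ n le_rfl]
    have k4 : 0 ≤ 1 / √(μ j) := by positivity
    have k5 : (2 + 32 / 3 * D) * (1 / √(μ n)) ≤ (2 + 32 / 3 * D) * 1 :=
      mul_le_mul_of_nonneg_left k3 (by positivity)
    have k6 : 0 ≤ (2 + 32 / 3 * D) * (1 / √(μ j)) := by positivity
    nlinarith
  have hlog : Real.log (μ j / μ n) = Real.log (μ j) - Real.log (μ n) :=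
    Real.log_div (by linarith [hμ j hj]) (by linarith [hμ n le_rfl])
  have e : μ j - μ n - 2 * ((n:ℝ) - j) - 8 / 15 * Real.log (μ j / μ n) =
    -(Φ n - Φ j + 2 * ((n:ℝ) - j)) + (2 * s j - 2 * s n) := by
    rw [hlog]; simp only [hΦ]; ring
  rw [e]
  refine (abs_add_le _ _).trans ?_
  rw [abs_neg]
  have k7 : |2 * s j - 2 * s n| ≤ 4 := by
    rw [abs_le]; constructor <;> linarith [(hs j hj).1, (hs j hj).2, (hs n le_rfl).1,
      (hs n le_rfl).2]
  linarith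

theorem t_OR2 : P_FL2 → P_OR2 := by
  rintro ⟨C3, C8, C12, C4, M0, D, hC3, hM0, hD, hpois, hflow⟩
  set M := M0 + 100 * (D + 1) * ((C3 + 1) + 3) with hM
  refine ⟨M, (60 + 4 * D + D * (C3 + 1)) * (2 * ((C3 + 1) + 1) + 6 * (1 + 4 * D)) + 4,
    by nlinarith, by positivity, ?_⟩
  intro m n hm hn
  have hM1 : M0 ≤ M := by rw [hM]; nlinarith
  have hM2 : 100 * (D + 1) * ((C3 + 1) + 3) ≤ M := by rw [hM]; linarith
  obtain ⟨pAM, pm, pv, -⟩ := bPOIS m hm.le
  have h0 : pois m 0 < 1 := by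
    simp only [pois, pow_zero, Nat.factorial_zero, Nat.cast_one, mul_one, div_one]
    rw [Real.exp_lt_one_iff]; linarith
  have hst := bST (pois m) pAM h0
  have hanti : Antitone fun i => mean (R^[i] (pois m)) := antitone_nat_of_succ_le hst.2.2.1
  have hbig : ∀ i ≤ n, M ≤ mean (R^[i] (pois m)) := fun i hi => hn.trans (hanti hi)
  have hmM : M ≤ m := by
    have := hbig 0 (Nat.zero_le _)
    simpa [pm] using this
  have hcl : ∀ i ≤ n, Cl C3 C8 C12 (R^[i] (pois m)) ∧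
      |k4 (R^[i] (pois m))| ≤ C4 * (mean (R^[i] (pois m)) * √(mean (R^[i] (pois m)))) := by
    intro i
    induction i with
    | zero => intro _; exact hpois m (by linarith)
    | succ i ih =>
      intro hi
      obtain ⟨c1, c2⟩ := ih (by omega)
      obtain ⟨f1, f2, -⟩ := hflow _ c1 c2 (hM1.trans (hbig i (by omega)))
      rw [Function.iterate_succ_apply']
      exact ⟨f1, f2⟩
  have hpos : ∀ i ≤ n, 0 < mean (R^[i] (pois m)) := fun i hi => by
    have := hbig i hi; linarith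
  have hvr : ∀ i ≤ n, 0 ≤ vr (R^[i] (pois m)) := fun i hi => by
    have ha := (hcl i hi).1.toAM
    unfold vr E
    exact tsum_nonneg fun k => mul_nonneg (ha.nn k) (sq_nonneg _)
  refine seq_or2 (D := D) (c := C3 + 1) hD (by linarith) (μ := fun i => mean (R^[i] (pois m)))
    (s := fun i => vr (R^[i] (pois m)) / mean (R^[i] (pois m)))
    (y := fun i => |k3 (R^[i] (pois m)) / mean (R^[i] (pois m)) - 1 / 15|) (n := n)
    (fun i hi => hM2.trans (hbig i hi)) ?_ ?_ ?_ ?_ ?_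
  · intro i hi
    refine ⟨div_nonneg (hvr i hi) (hpos i hi).le, ?_⟩
    rw [div_le_one (hpos i hi)]
    exact (hcl i hi).1.vr_le
  · intro i hi
    refine ⟨abs_nonneg _, ?_⟩
    have hk : |k3 (R^[i] (pois m)) / mean (R^[i] (pois m))| ≤ C3 := by
      rw [abs_div, abs_of_pos (hpos i hi), div_le_iff₀ (hpos i hi)]
      exact (hcl i hi).1.k3_le
    refine (abs_sub _ _).trans ?_
    rw [abs_of_pos (by norm_num : (0:ℝ) < 1 / 15)]
    linarith
  · intro i hi
    obtain ⟨-, -, f, -, -⟩ := hflow _ (hcl i hi.le).1 (hcl i hi.le).2 (hM1.trans (hbig i hi.le))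
    simp only [Function.iterate_succ_apply']
    exact f
  · intro i hi
    obtain ⟨-, -, -, f, -⟩ := hflow _ (hcl i hi.le).1 (hcl i hi.le).2 (hM1.trans (hbig i hi.le))
    simp only [Function.iterate_succ_apply']
    exact f
  · intro i hi
    obtain ⟨-, -, -, -, f⟩ := hflow _ (hcl i hi.le).1 (hcl i hi.le).2 (hM1.trans (hbig i hi.le))
    simp only [Function.iterate_succ_apply']
    exact f

end Pool.Agent.Q91.MK
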